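import Pool.Agent.Helper50.GP.St

set_option autoImplicit false

/-!
Module SEC of project GP (MP_b3ce06_al): composition factors of normal sections.
-/

namespace Pool.Agent.Helper36.GP

open Pool.Agent.Helper50.GP Pool.Agent.Helper41.DZ

theorem factor_congr {S A B : Type} [Group S] [Group A] [Group B] (e : A ≃* B)
    (h : IsCompositionFactor S A) : IsCompositionFactor S B := by
  obtain ⟨n, H, ⟨h0, hn, hstep⟩, i, hi, hnor, ⟨es⟩⟩ := h
  have hinj : Function.Injective e.toMonoidHom := e.injective
  refine ⟨n, fun i => (H i).map e.toMonoidHom, ⟨?_, ?_, ?_⟩, i, hi, ?_⟩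
  · show (H 0).map e.toMonoidHom = ⊤
    rw [h0]
    exact Subgroup.map_top_of_surjective _ e.surjective
  · show (H n).map e.toMonoidHom = ⊥
    rw [hn, Subgroup.map_bot]
  · intro j hj
    obtain ⟨hle, hno, hs⟩ := hstep j hj
    have hno' := normal_map e.toMonoidHom hinj (H (j + 1)) (H j) hno
    exact ⟨Subgroup.map_mono hle, hno', isSimpleGroup_congr
      (quotMap e.toMonoidHom hinj (H (j + 1)) (H j) hno hno') hs⟩
  · have hnor' := normal_map e.toMonoidHom hinj (H (i + 1)) (H i) hnor
    exact ⟨hnor', ⟨es.trans (quotMap e.toMonoidHom hinj (H (i + 1)) (H i) hnor hnor')⟩⟩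

theorem factor_sub (S : Type) [Group S] :
    ∀ (n : ℕ) (G : Type) [Group G] [Finite G], Nat.card G = n →
    ∀ (B : Subgroup G), B.Normal → IsCompositionFactor S B → IsCompositionFactor S G := by
  intro n
  induction n using Nat.strong_induction_on with
  | _ n ih =>
    intro G _ _ hn B hB hS
    by_cases htop : B = ⊤
    · subst htop
      exact factor_congr (Subgroup.topEquiv (G := G)) hS
    · obtain ⟨M, hMn, hLM, hMtop, hsim⟩ := exists_maxNormal B htop
      have hlt : Nat.card M < n := by
        rw [← hn]
        exact lt_of_le_of_ne (Subgroup.card_le_card_group M)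
          (fun h => hMtop (Subgroup.eq_top_of_card_eq M h))
      have hLn : (B.subgroupOf M).Normal := inferInstance
      exact factor_cons M hsim (ih _ hlt M rfl (B.subgroupOf M) hLn
        (factor_congr (Subgroup.subgroupOfEquivOfLe hLM).symm hS))

theorem hSEC : StSEC := by
  intro S G T _ _ _ _ hS B hB f hf A hA h hh
  refine factor_sub S _ G rfl B hB ?_
  have hmem : ∀ b : A.comap f, f b.1 ∈ A := fun b => b.2
  let g : A.comap f →* A := (f.comp (A.comap f).subtype).codRestrict A hmem
  have hg : Function.Surjective g := by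
    rintro ⟨a, ha⟩
    obtain ⟨b, hb⟩ := hf a
    refine ⟨⟨b, ?_⟩, ?_⟩
    · rw [Subgroup.mem_comap, hb]
      exact ha
    · exact Subtype.ext hb
  exact factor_of_section S hS _ B rfl (A.comap f) (hA.comap f) (h.comp g) (hh.comp hg)

end Pool.Agent.Helper36.GP
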